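import Pool.Agent.H87.EBK.Stmts2

/-!
# Board `ebs`, row ITN
-/

set_option autoImplicit false

namespace Pool.EBK

theorem itn : ITN := by
  intro V _ l hl
  have := Fintype.ofFinite V
  obtain ⟨N, hN⟩ : ∃ N : ℕ, N = ∏ u, (l u).den := ⟨_, rfl⟩
  have hN0 : 0 < N := by
    rw [hN]
    exact Finset.prod_pos fun u _ => (l u).den_pos
  have h1 : ∀ u, ∃ n : ℕ, (n : ℚ) = N * l u := by
    intro u
    have hd : (l u).den ∣ N := by
      rw [hN]
      exact Finset.dvd_prod_of_mem _ (Finset.mem_univ u)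
    obtain ⟨c, hc⟩ := hd
    refine ⟨c * (l u).num.toNat, ?_⟩
    have h2 : (((l u).num.toNat : ℕ) : ℤ) = (l u).num :=
      Int.toNat_of_nonneg (Rat.num_nonneg.2 (hl u).le)
    have h3 : (((l u).num.toNat : ℕ) : ℚ) = ((l u).num : ℚ) := by
      rw [← h2]
      push_cast
      rfl
    have h4 : (l u) * ((l u).den : ℚ) = ((l u).num : ℚ) := Rat.mul_den_eq_num (l u)
    push_cast
    rw [h3, ← h4, hc]
    push_cast
    ring
  choose x hx using h1
  exact ⟨N, x, hN0, hx⟩

end Pool.EBK
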